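import Pool.Agent.Helper13.RS.St

/-! Module SM of project RS: sums of `1/m` over the integers free of some primes. -/

set_option autoImplicit false

open Pool.Agent.Helper13.RS Finset

namespace Pool.Agent.Helper92.RS

theorem hSM : StSM := by
  intro B U hB hU
  induction B using Finset.induction_on with
  | empty =>
    have h1 : (Icc 1 U).filter (fun m => ∀ p ∈ (∅ : Finset ℕ), ¬ p ∣ m) = Icc 1 U := by
      apply Finset.filter_true_of_mem
      intro m _ p hp
      simp at hp
    rw [h1]
    have h2 : (∑ m ∈ Icc 1 U, 1 / (m : ℝ)) = (harmonic U : ℝ) := by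
      rw [harmonic_eq_sum_Icc]
      push_cast
      apply Finset.sum_congr rfl
      intro m _
      rw [one_div]
    rw [h2]
    simp only [Finset.prod_empty, one_mul]
    refine le_trans ?_ (log_add_one_le_harmonic U)
    apply Real.log_le_log
    · exact_mod_cast hU
    · push_cast
      linarith
  | insert p B hp ih =>
    have ih' := ih (fun q hq => hB q (Finset.mem_insert_of_mem hq))
    have hpp : p.Prime := hB p (Finset.mem_insert_self p B)
    have hp0 : (0 : ℝ) < (p : ℝ) := by exact_mod_cast hpp.pos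
    have hp1 : (1 : ℝ) ≤ (p : ℝ) := by exact_mod_cast hpp.one_lt.le
    rw [Finset.prod_insert hp]
    set S : ℝ := ∑ m ∈ (Icc 1 U).filter (fun m => ∀ q ∈ B, ¬ q ∣ m), 1 / (m : ℝ) with hS
    -- split
    have h1 : S = (∑ m ∈ (Icc 1 U).filter (fun m => ∀ q ∈ insert p B, ¬ q ∣ m), 1 / (m : ℝ)) +
        ∑ m ∈ ((Icc 1 U).filter (fun m => ∀ q ∈ B, ¬ q ∣ m)).filter (fun m => p ∣ m),
          1 / (m : ℝ) := by
      rw [hS, ← Finset.sum_filter_not_add_sum_filter
        ((Icc 1 U).filter (fun m => ∀ q ∈ B, ¬ q ∣ m)) (fun m => p ∣ m)]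
      congr 1
      apply Finset.sum_congr _ (fun _ _ => rfl)
      ext m
      simp only [Finset.mem_filter, Finset.mem_insert, forall_eq_or_imp]
      tauto
    have h2 : ∑ m ∈ ((Icc 1 U).filter (fun m => ∀ q ∈ B, ¬ q ∣ m)).filter (fun m => p ∣ m),
          1 / (m : ℝ) ≤ 1 / (p : ℝ) * S := by
      rw [hS, Finset.mul_sum]
      have h3 : ((Icc 1 U).filter (fun m => ∀ q ∈ B, ¬ q ∣ m)).filter (fun m => p ∣ m) ⊆
          ((Icc 1 U).filter (fun m => ∀ q ∈ B, ¬ q ∣ m)).image (fun m => p * m) := by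
        intro m hm
        simp only [Finset.mem_filter, Finset.mem_Icc, Finset.mem_image] at hm ⊢
        obtain ⟨⟨⟨a1, a2⟩, a3⟩, k, rfl⟩ := hm
        refine ⟨k, ⟨⟨?_, ?_⟩, ?_⟩, rfl⟩
        · rcases Nat.eq_zero_or_pos k with hk | hk
          · subst hk
            simp at a1
          · exact hk
        · exact le_trans (Nat.le_mul_of_pos_left k hpp.pos) a2
        · intro q hq hqk
          exact a3 q hq (dvd_mul_of_dvd_right hqk p)
      refine le_trans (Finset.sum_le_sum_of_subset_of_nonneg h3 (fun m _ _ => by positivity)) ?_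
      rw [Finset.sum_image (fun a _ b _ hab => Nat.eq_of_mul_eq_mul_left hpp.pos hab)]
      apply Finset.sum_le_sum
      intro m _
      push_cast
      rw [one_div_mul_one_div]
    have h4 : (1 - 1 / (p : ℝ)) * S ≤
        ∑ m ∈ (Icc 1 U).filter (fun m => ∀ q ∈ insert p B, ¬ q ∣ m), 1 / (m : ℝ) := by
      have : (1 - 1 / (p : ℝ)) * S = S - 1 / (p : ℝ) * S := by ring
      rw [this]
      linarith
    refine le_trans ?_ h4
    rw [mul_assoc]
    apply mul_le_mul_of_nonneg_left ih'
    rw [sub_nonneg, div_le_one hp0]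
    exact hp1

end Pool.Agent.Helper92.RS
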